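import Pool.Agent.Work.MP_db9399_bg_helper67.LAB
import Pool.Agent.Work.MP_db9399_px_helper6.LLX

/-!
# MP_db9399, THEOREM OUT, block LABF: random labels for finitely many graphs at the same time

`stmt_LLXF`: block LLX of PARTX for a finite family of graphs on the same vertex set (the proof of
LLX with one more index). `stmt_LABF`: one labelling with the properties `LabP` for all graphs of
a finite family; the graphs may have different degree scales `Ds i` with `ρ * d ≤ Ds i ≤ d`.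
-/

set_option autoImplicit false

namespace Pool.Agent.Work.MP_db9399_lf.helper6

open Finset Classical
open Pool.Agent.Work.MP_db9399_all (nb pr DepOnI PackI)
open Pool.Agent.Work.MP_db9399_px (LWalk hit ee ff GoodF cc atm per Blocks lball PropX PropV
  Stmt_BALL Stmt_LPKX Stmt_LPKV Stmt_LNUM)
open Pool.Agent.Work.MP_db9399_bg (den cl LabP Good den_nonneg den_le_one)

universe u

/-- LLX for a finite family of graphs. -/
def Stmt_LLXF : Prop :=
  ∀ (F M : ℕ) (σ δ c1 : ℝ), 0 < M → 0 < σ → σ ≤ 1 → 0 < δ → δ ≤ 1 → 0 < c1 → ∃ d0 : ℕ, 1 ≤ d0 ∧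
    ∀ {V : Type u} [Fintype V] (Gs : Fin F → SimpleGraph V) (d : ℕ) (blk : V → V)
      (pos : V → Fin M), d0 ≤ d → (∀ i v, (nb (Gs i) v).card ≤ d) → Blocks M blk pos →
      ∃ f : V → Fin (M.factorial), ∀ i,
        (∀ v (P : Finset (Fin M)),
          |((nb (Gs i) v ∩ cc M blk pos f P).card : ℝ) - (P.card : ℝ) / M * (nb (Gs i) v).card| ≤
            δ * d ∧
          ee (Gs i) (nb (Gs i) v ∩ cc M blk pos f P) (nb (Gs i) v ∩ cc M blk pos f P) ≤
            ((P.card : ℝ) / M) ^ 2 * ee (Gs i) (nb (Gs i) v) (nb (Gs i) v) + δ * (d : ℝ) ^ 2) ∧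
        ∀ (P Q : Finset (Fin M)) (L : ℕ) (w : ℕ → V) (R S : Finset V) (θ1 θ2 : ℝ),
          P.card = Q.card → P.Nonempty → LWalk (Gs i) L w → 1 ≤ L → 0 ≤ θ1 → 0 ≤ θ2 →
          (∀ v ∈ R ∪ S, ∃ i ≤ L, w i = v) →
          c1 * (L * d) ≤ Real.log d *
            (((hit (Gs i) θ2 S).card : ℝ) + (hit (Gs i) θ1 R).card) →
          GoodF (Gs i) d M σ blk pos P Q (hit (Gs i) θ2 S) (hit (Gs i) θ1 R) f

/-- LABF: random labels for a finite family of graphs. -/
def Stmt_LABF : Prop :=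
  ∀ (T : Type) [Fintype T] [Nonempty T] (F : ℕ) (σ c1 ρ : ℝ), 0 < σ → 0 < c1 → 0 < ρ →
    ∃ d0 : ℕ, ∀ {V : Type u} [Fintype V] (Gs : Fin F → SimpleGraph V) (d : ℕ) (Ds : Fin F → ℕ),
      d0 ≤ d → (∀ i v, (nb (Gs i) v).card ≤ d) → (∀ i, ρ * d ≤ Ds i ∧ Ds i ≤ d) →
      ∃ lab : V → T, ∀ i, LabP (Gs i) (Ds i) σ c1 lab

theorem stmt_LLXF' (hBALL : Stmt_BALL.{u}) (hLPKX : Stmt_LPKX.{u}) (hLPKV : Stmt_LPKV.{u})
    (hLNUM : Stmt_LNUM) : Stmt_LLXF.{u} := by
  intro F M σ δ c1 hM hσ hσ1 hδ hδ1 hc1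
  have hMr : (1 : ℝ) ≤ M := by exact_mod_cast hM
  obtain ⟨dX, hdX3, HX⟩ := hLPKX M σ hM hσ hσ1
  obtain ⟨dV, hdV1, HV⟩ := hLPKV M σ δ hM hσ hσ1 hδ hδ1
  have hs0 : 0 < σ ^ 2 / (200 * (M : ℝ) ^ 5) := by positivity
  have he0 : 0 < δ ^ 2 / (32 * (M : ℝ)) := by positivity
  have hMF : M ≤ M * (F + 1) := Nat.le_mul_of_pos_right M (Nat.succ_pos F)
  obtain ⟨dN, hdN3, HN⟩ := hLNUM (M * (F + 1)) (σ ^ 2 / (200 * (M : ℝ) ^ 5)) c1
    (δ ^ 2 / (32 * (M : ℝ))) (Nat.mul_pos hM (Nat.succ_pos F)) hs0 hc1 he0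
  refine ⟨max dX (max dV dN), le_trans (by omega) (le_max_left _ _), ?_⟩
  intro V _ Gs d blk pos hd hdeg hB
  have hdX : dX ≤ d := (le_max_left _ _).trans hd
  have hdV : dV ≤ d := (le_max_left _ _).trans ((le_max_right _ _).trans hd)
  have hdN : dN ≤ d := (le_max_right _ _).trans ((le_max_right _ _).trans hd)
  have hd3 : (3 : ℝ) ≤ d := by exact_mod_cast hdX3.trans hdX
  have hlog : 0 ≤ Real.log d := Real.log_nonneg (by linarith)
  have hs1 : σ ^ 2 / (200 * (M : ℝ) ^ 5) ≤ 1 := by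
    rw [div_le_one (by positivity)]
    have h1 : σ ^ 2 ≤ 1 := by nlinarith
    have h2 : (1 : ℝ) ≤ (M : ℝ) ^ 5 := one_le_pow₀ hMr
    linarith
  obtain ⟨Lm, hLm⟩ := exists_nat_ge (Real.log d * (2 * Fintype.card V) / (c1 * d))
  obtain ⟨hN0, hNL⟩ := HN d hdN
  set s : ℝ := σ ^ 2 / (200 * (M : ℝ) ^ 5) with hs
  set T : ℝ := s / (16 * (d + 1)) with hT
  have hT0 : 0 ≤ T := by positivity
  set W0 : ℝ := 20 * 4 ^ M * Real.exp (-(δ ^ 2 / (32 * M) * d)) with hW0
  set WL : ℕ → ℝ := fun L => 20 * 4 ^ M * (d + 2) ^ 2 * (4 * (d + 1)) ^ (L + 1) *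
          Real.exp (-(3 / 4 * s * (c1 * L * d / Real.log d))) with hWL
  have hW0' : 0 ≤ W0 := by positivity
  have hWL' : ∀ L, 0 ≤ WL L := fun L => by simp only [hWL]; positivity
  have h4 : (4 : ℝ) ^ M ≤ 4 ^ (M * (F + 1)) := pow_le_pow_right₀ (by norm_num) hMF
  have hF1 : (0 : ℝ) < (F : ℝ) + 1 := by positivity
  -- the numbers with the factor `F + 1`
  have hN0' : (M : ℝ) * (d + 1) ^ 4 * W0 ≤ T / 4 / (F + 1) := by
    rw [le_div_iff₀ hF1]
    refine le_trans ?_ hN0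
    have : (M : ℝ) * (d + 1) ^ 4 * W0 * (F + 1) = ((M * (F + 1) : ℕ) : ℝ) * (d + 1) ^ 4 *
        (20 * 4 ^ M * Real.exp (-(δ ^ 2 / (32 * M) * d))) := by
      rw [hW0]; push_cast; ring
    rw [this]
    gcongr
  have hNL' : ∀ L : ℕ, 1 ≤ L → (M : ℝ) * (d + 1) ^ (L + 3) * WL L ≤ T / 4 / 2 ^ L / (F + 1) := by
    intro L hL
    rw [le_div_iff₀ hF1]
    refine le_trans ?_ (hNL L hL)
    have : (M : ℝ) * (d + 1) ^ (L + 3) * WL L * (F + 1) = ((M * (F + 1) : ℕ) : ℝ) *
        (d + 1) ^ (L + 3) * (20 * 4 ^ M * (d + 2) ^ 2 * (4 * (d + 1)) ^ (L + 1) *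
          Real.exp (-(3 / 4 * s * (c1 * L * d / Real.log d)))) := by
      simp only [hWL]; push_cast; ring
    rw [this]
    gcongr
  have key := Pool.Agent.Work.MP_db9399_all.stmt_LLLI V (M.factorial)
    (V × (Fin (Lm + 1) × Fin F)) T
    (fun r => if (r.2.1 : ℕ) = 0 then (lball (Gs r.2.2) 4 r.1).image blk
      else (lball (Gs r.2.2) (r.2.1 + 3) r.1).image blk)
    (fun r => if (r.2.1 : ℕ) = 0 then W0 else WL r.2.1)
    (fun r f => if (r.2.1 : ℕ) = 0 then PropV (Gs r.2.2) d M δ blk pos r.1 f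
      else PropX (Gs r.2.2) d M σ c1 blk pos r.1 r.2.1 f)
    (Nat.factorial_pos M) hT0
    (by
      rw [hT, div_le_iff₀ (by positivity)]
      nlinarith)
    (by
      intro r
      by_cases hr : (r.2.1 : ℕ) = 0
      · simp only [hr, if_true]
        exact HV (Gs r.2.2) d blk pos r.1 hdV (hdeg _) hB
      · simp only [hr, if_false]
        exact HX (Gs r.2.2) d r.2.1 c1 blk pos r.1 hdX (Nat.one_le_iff_ne_zero.2 hr) hc1
          (hdeg _) hB)
    (by
      intro y
      have h1 : ∑ r ∈ univ.filter (fun r : V × (Fin (Lm + 1) × Fin F) =>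
            y ∈ (if (r.2.1 : ℕ) = 0 then (lball (Gs r.2.2) 4 r.1).image blk
              else (lball (Gs r.2.2) (r.2.1 + 3) r.1).image blk)),
            (if (r.2.1 : ℕ) = 0 then W0 else WL r.2.1) =
          ∑ L : Fin (Lm + 1), ∑ i : Fin F, ∑ x : V,
            (if y ∈ (if (L : ℕ) = 0 then (lball (Gs i) 4 x).image blk
              else (lball (Gs i) (L + 3) x).image blk) then
              (if (L : ℕ) = 0 then W0 else WL L) else 0) := by
        rw [Finset.sum_filter, Fintype.sum_prod_type, Finset.sum_comm, Fintype.sum_prod_type]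
      rw [h1]
      have h2 : ∀ (L : Fin (Lm + 1)) (i : Fin F), (∑ x : V,
            (if y ∈ (if (L : ℕ) = 0 then (lball (Gs i) 4 x).image blk
              else (lball (Gs i) (L + 3) x).image blk) then
              (if (L : ℕ) = 0 then W0 else WL L) else 0)) ≤
            T / 4 * (1 / 2) ^ (L : ℕ) / (F + 1) := by
        intro L i
        by_cases hL : (L : ℕ) = 0
        · simp only [hL, if_true, pow_zero, mul_one]
          rw [← Finset.sum_filter, Finset.sum_const, nsmul_eq_mul]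
          refine le_trans ?_ hN0'
          exact mul_le_mul_of_nonneg_right
            (Pool.Agent.Work.MP_db9399_px.helper6.LLXAux.roots hBALL (Gs i) d M (hdeg i) blk pos
              hB 4 y) hW0'
        · simp only [hL, if_false]
          rw [← Finset.sum_filter, Finset.sum_const, nsmul_eq_mul]
          have h3 := hNL' L (Nat.one_le_iff_ne_zero.2 hL)
          have h4 : T / 4 * (1 / 2) ^ (L : ℕ) / (F + 1) = T / 4 / 2 ^ (L : ℕ) / (F + 1) := by
            rw [one_div, inv_pow, div_eq_mul_inv (T / 4) (2 ^ (L : ℕ))]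
          rw [h4]
          refine le_trans ?_ h3
          exact mul_le_mul_of_nonneg_right
            (Pool.Agent.Work.MP_db9399_px.helper6.LLXAux.roots hBALL (Gs i) d M (hdeg i) blk pos
              hB (L + 3) y) (hWL' _)
      have h5 : ∀ L : Fin (Lm + 1), (∑ i : Fin F, ∑ x : V,
            (if y ∈ (if (L : ℕ) = 0 then (lball (Gs i) 4 x).image blk
              else (lball (Gs i) (L + 3) x).image blk) then
              (if (L : ℕ) = 0 then W0 else WL L) else 0)) ≤ T / 4 * (1 / 2) ^ (L : ℕ) := by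
        intro L
        refine (Finset.sum_le_sum fun i _ => h2 L i).trans ?_
        rw [Finset.sum_const, Finset.card_univ, Fintype.card_fin, nsmul_eq_mul]
        have h6 : 0 ≤ T / 4 * (1 / 2) ^ (L : ℕ) := by positivity
        rw [mul_div_assoc', div_le_iff₀ hF1]
        nlinarith
      refine (Finset.sum_le_sum fun L _ => h5 L).trans ?_
      rw [← Finset.mul_sum, ← Finset.sum_range (fun L => ((1 : ℝ) / 2) ^ L)]
      have h3 := sum_geometric_two_le (Lm + 1)
      nlinarith)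
  obtain ⟨f, hf⟩ := key
  refine ⟨f, fun i => ⟨?_, ?_⟩⟩
  · intro v P
    have h1 := hf (v, (⟨0, Nat.succ_pos _⟩, i))
    simp only [if_true] at h1
    exact h1 P
  · intro P Q L w R S θ1 θ2 hPQ hP hw hL hθ1 hθ2 hRS hc
    have h1 : (L : ℝ) ≤ Lm := by
      refine le_trans ?_ hLm
      rw [le_div_iff₀ (by positivity)]
      have h2 : ((hit (Gs i) θ2 S).card : ℝ) ≤ Fintype.card V := by
        exact_mod_cast Finset.card_le_univ _
      have h3 : ((hit (Gs i) θ1 R).card : ℝ) ≤ Fintype.card V := by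
        exact_mod_cast Finset.card_le_univ _
      calc (L : ℝ) * (c1 * d) = c1 * (L * d) := by ring
        _ ≤ _ := hc
        _ ≤ _ := mul_le_mul_of_nonneg_left (by linarith) hlog
    have h2 : L < Lm + 1 := by
      have : L ≤ Lm := by exact_mod_cast h1
      omega
    have h3 := hf (w 0, (⟨L, h2⟩, i))
    simp only [Nat.one_le_iff_ne_zero.1 hL, if_false] at h3
    exact h3 P Q w R S θ1 θ2 hPQ hP hw rfl hθ1 hθ2 hRS hc

theorem stmt_LLXF : Stmt_LLXF.{u} :=
  stmt_LLXF' Pool.Agent.Work.MP_db9399_px.helper99.stmt_BALL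
    (Pool.Agent.Work.MP_db9399_px.helper50.LPKX.stmt_LPKX
      (Pool.Agent.Work.MP_db9399_px.helper50.stmt_EVF
        Pool.Agent.Work.MP_db9399_px.helper31.stmt_PBM
        Pool.Agent.Work.MP_db9399_px.helper31.stmt_UNI Pool.Agent.Work.MP_db9399_px.lin_holds)
      Pool.Agent.Work.MP_db9399_px.helper31.stmt_CNT Pool.Agent.Work.MP_db9399_px.helper99.stmt_BALL)
    (Pool.Agent.Work.MP_db9399_px.helper89.stmt_LPKV Pool.Agent.Work.MP_db9399_px.lin_holds
      (Pool.Agent.Work.MP_db9399_px.helper83.stmt_EVS Pool.Agent.Work.MP_db9399_px.helper31.stmt_PBM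
        Pool.Agent.Work.MP_db9399_px.helper31.stmt_UNI))
    Pool.Agent.Work.MP_db9399_px.helper23.stmt_LNUM

/-- change of the degree scale in `LabP` -/
theorem LabP_rescale {V : Type u} [Fintype V] {T : Type} [Fintype T] (G : SimpleGraph V)
    (d D : ℕ) (σ σ' c1 c1' ρ : ℝ) (lab : V → T) (h : LabP G d σ c1 lab) (hρ : 0 < ρ)
    (hρ1 : ρ ≤ 1) (h1 : ρ * d ≤ D) (h2 : D ≤ d) (hd : 0 < d) (hs' : 0 ≤ σ')
    (hs : σ ≤ σ' * ρ ^ 2) (hc' : 0 ≤ c1') (hc : c1 ≤ c1' * ρ) : LabP G D σ' c1' lab := by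
  have hd0 : (0 : ℝ) < d := by exact_mod_cast hd
  have hD0 : (0 : ℝ) < D := lt_of_lt_of_le (by positivity) h1
  have hDd : (D : ℝ) ≤ d := by exact_mod_cast h2
  have hr2 : ρ ^ 2 ≤ ρ := by nlinarith
  have hs1 : σ ≤ σ' := by nlinarith
  have hsd : σ * d ≤ σ' * D := by
    calc σ * d ≤ σ' * ρ ^ 2 * d := mul_le_mul_of_nonneg_right hs hd0.le
      _ = σ' * (ρ * (ρ * d)) := by ring
      _ ≤ σ' * (1 * D) := by
          apply mul_le_mul_of_nonneg_left _ hs'
          exact mul_le_mul hρ1 h1 (by positivity) (by norm_num)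
      _ = σ' * D := by ring
  refine ⟨?_, ?_, ?_⟩
  · intro v P
    exact (h.deg v P).trans hsd
  · intro v P
    refine (h.sps v P).trans ?_
    have : σ * (d : ℝ) ^ 2 ≤ σ' * (D : ℝ) ^ 2 := by
      calc σ * (d : ℝ) ^ 2 ≤ σ' * ρ ^ 2 * (d : ℝ) ^ 2 :=
            mul_le_mul_of_nonneg_right hs (by positivity)
        _ = σ' * (ρ * d) ^ 2 := by ring
        _ ≤ σ' * (D : ℝ) ^ 2 := by
            apply mul_le_mul_of_nonneg_left _ hs'
            exact pow_le_pow_left₀ (by positivity) h1 2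
    linarith
  · intro P Q L w R S θ1 θ2 hPQ hP hw hL hθ1 hθ2 hRS hcc
    have hX : (0 : ℝ) ≤ ((hit G θ2 S).card : ℝ) + (hit G θ1 R).card := by positivity
    have hlog : Real.log D ≤ Real.log d := Real.log_le_log hD0 hDd
    have hcod := h.cod P Q L w R S θ1 θ2 hPQ hP hw hL hθ1 hθ2 hRS (by
      calc c1 * ((L : ℝ) * d) ≤ c1' * ρ * ((L : ℝ) * d) :=
            mul_le_mul_of_nonneg_right hc (by positivity)
        _ = c1' * (L * (ρ * d)) := by ring
        _ ≤ c1' * (L * D) := by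
            apply mul_le_mul_of_nonneg_left _ hc'
            exact mul_le_mul_of_nonneg_left h1 (Nat.cast_nonneg _)
        _ ≤ Real.log D * (((hit G θ2 S).card : ℝ) + (hit G θ1 R).card) := hcc
        _ ≤ _ := mul_le_mul_of_nonneg_right hlog hX)
    obtain ⟨g1, g2, g3⟩ := hcod
    refine ⟨g1.trans ?_, g2.trans ?_, g3.trans ?_⟩
    · exact mul_le_mul_of_nonneg_right hsd hX
    · exact mul_le_mul_of_nonneg_right hs1 hX
    · exact mul_le_mul_of_nonneg_right hs1 hX

theorem stmt_LABF : Stmt_LABF.{u} := by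
  intro T _ _ F σ' c1' ρ' hσ' hc1' hρ'
  have hM : 0 < Fintype.card T := Fintype.card_pos
  set ρ : ℝ := min ρ' 1 with hρdef
  have hρ : 0 < ρ := lt_min hρ' one_pos
  have hρ1 : ρ ≤ 1 := min_le_right _ _
  set σ : ℝ := σ' * ρ ^ 2 with hσdef
  set c1 : ℝ := c1' * ρ with hc1def
  have hσ : 0 < σ := by positivity
  have hc1 : 0 < c1 := by positivity
  obtain ⟨d0, hd01, h⟩ := stmt_LLXF.{u} F (Fintype.card T)
    (min σ 1 / 2) (min σ 1) c1 hM (by positivity) (by
      have : min σ 1 ≤ 1 := min_le_right _ _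
      linarith) (lt_min hσ one_pos) (min_le_right _ _) hc1
  refine ⟨d0, ?_⟩
  intro V _ Gs d Ds hd hdeg hDs
  haveI : NeZero (Fintype.card T) := ⟨hM.ne'⟩
  obtain ⟨f, hf⟩ := h Gs d id (fun _ => 0) hd hdeg (by
    intro v w h1 _
    exact h1)
  obtain ⟨e⟩ : Nonempty (T ≃ Fin (Fintype.card T)) := ⟨Fintype.equivFin T⟩
  have hcl : ∀ P : Finset T, cl (fun v => e.symm (atm (Fintype.card T) id (fun _ => 0) f v)) P =
      cc (Fintype.card T) id (fun _ => 0) f (P.map e.toEmbedding) := by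
    intro P
    ext v
    unfold cl cc
    rw [mem_filter, mem_filter]
    simp only [mem_univ, true_and, mem_map, Equiv.coe_toEmbedding]
    constructor
    · intro h1
      exact ⟨_, h1, by simp⟩
    · rintro ⟨t, h1, h2⟩
      rw [← h2]
      simpa using h1
  have hden : ∀ P : Finset T, ((P.map e.toEmbedding).card : ℝ) / (Fintype.card T : ℝ) = den P := by
    intro P
    rw [card_map]
    rfl
  refine ⟨fun v => e.symm (atm (Fintype.card T) id (fun _ => 0) f v), fun i => ?_⟩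
  refine LabP_rescale (Gs i) d (Ds i) σ σ' c1 c1' ρ _ ?_ hρ hρ1 ?_ (hDs i).2
    (lt_of_lt_of_le hd01 hd) hσ'.le le_rfl hc1'.le le_rfl
  swap
  · exact (mul_le_mul_of_nonneg_right (min_le_left _ _) (Nat.cast_nonneg _)).trans (hDs i).1
  obtain ⟨hf1, hf2⟩ := hf i
  set G := Gs i with hG
  refine ⟨?_, ?_, ?_⟩
  · intro v P
    rw [hcl, ← hden]
    refine (hf1 v _).1.trans ?_
    exact mul_le_mul_of_nonneg_right (min_le_left _ _) (Nat.cast_nonneg _)
  · intro v P
    rw [hcl, ← hden]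
    refine (hf1 v _).2.trans ?_
    have : min σ 1 * (d : ℝ) ^ 2 ≤ σ * (d : ℝ) ^ 2 :=
      mul_le_mul_of_nonneg_right (min_le_left _ _) (by positivity)
    linarith
  · intro P Q L w R S θ1 θ2 hPQ hP hw hL h1 h2 hRS hc
    obtain ⟨g1, g2, g3⟩ := hf2 (P.map e.toEmbedding) (Q.map e.toEmbedding) L w R S θ1 θ2
      (by rw [card_map, card_map, hPQ]) (by rwa [map_nonempty]) hw hL h1 h2 hRS hc
    unfold Good
    rw [hcl, hcl]
    rw [hden] at g1 g2 g3
    have hp0 := den_nonneg P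
    have hp1 := den_le_one P
    have hm0 : 0 ≤ min σ 1 := by positivity
    have hm1 : min σ 1 ≤ σ := min_le_left _ _
    set A := hit G θ2 S with hA
    set B := hit G θ1 R with hB
    set CP := cc (Fintype.card T) id (fun _ => 0) f (P.map e.toEmbedding) with hCP
    set CQ := cc (Fintype.card T) id (fun _ => 0) f (Q.map e.toEmbedding) with hCQ
    set p := den P with hp
    have hs : (0 : ℝ) ≤ (A.card : ℝ) + B.card := by positivity
    have hk : min σ 1 / 2 * p * ((A.card : ℝ) + B.card) ≤ min σ 1 / 2 * ((A.card : ℝ) + B.card) := by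
      apply mul_le_mul_of_nonneg_right _ hs
      nlinarith
    have hk2 : min σ 1 / 2 * ((A.card : ℝ) + B.card) ≤ σ * ((A.card : ℝ) + B.card) :=
      mul_le_mul_of_nonneg_right (by linarith) hs
    refine ⟨?_, g2.trans (hk.trans hk2), g3.trans (hk.trans hk2)⟩
    have hB2 : CQ \ (B ∩ CQ) = CQ \ B := by
      ext x
      simp only [mem_sdiff, mem_inter]
      tauto
    unfold ff at g1
    rw [hB2] at g1
    have hd0 : (0 : ℝ) ≤ d := Nat.cast_nonneg _
    have e1 : ee G (A ∩ CP) (CQ \ B) - p ^ 2 * ee G A (univ \ B) =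
        (ee G (A ∩ CP) (CQ \ B) + p * d / 2 * (((B ∩ CQ).card : ℝ) - (A ∩ CP).card) -
          p ^ 2 * (ee G A (univ \ B) + d / 2 * ((B.card : ℝ) - A.card))) +
        (p * d / 2 * (((A ∩ CP).card : ℝ) - p * A.card) -
          p * d / 2 * (((B ∩ CQ).card : ℝ) - p * B.card)) := by ring
    rw [e1]
    have hq : 0 ≤ p * d / 2 := by positivity
    have g2' := mul_le_mul_of_nonneg_left g2 hq
    have g3' := mul_le_mul_of_nonneg_left g3 hq
    have a2 : |p * d / 2 * (((A ∩ CP).card : ℝ) - p * A.card)| ≤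
        p * d / 2 * (min σ 1 / 2 * p * ((A.card : ℝ) + B.card)) := by
      rw [abs_mul, abs_of_nonneg hq]
      exact g2'
    have a3 : |p * d / 2 * (((B ∩ CQ).card : ℝ) - p * B.card)| ≤
        p * d / 2 * (min σ 1 / 2 * p * ((A.card : ℝ) + B.card)) := by
      rw [abs_mul, abs_of_nonneg hq]
      exact g3'
    refine (abs_add_le _ _).trans ?_
    refine (add_le_add g1 ((abs_sub _ _).trans (add_le_add a2 a3))).trans ?_
    have e2 : min σ 1 / 2 * p ^ 2 * d * ((A.card : ℝ) + B.card) +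
        (p * d / 2 * (min σ 1 / 2 * p * ((A.card : ℝ) + B.card)) +
          p * d / 2 * (min σ 1 / 2 * p * ((A.card : ℝ) + B.card))) =
        min σ 1 * p ^ 2 * (d * ((A.card : ℝ) + B.card)) := by ring
    rw [e2]
    have e3 : min σ 1 * p ^ 2 ≤ σ := by
      have : p ^ 2 ≤ 1 := by nlinarith
      nlinarith
    calc min σ 1 * p ^ 2 * (d * ((A.card : ℝ) + B.card)) ≤ σ * (d * ((A.card : ℝ) + B.card)) :=
          mul_le_mul_of_nonneg_right e3 (mul_nonneg hd0 hs)
      _ = σ * d * ((A.card : ℝ) + B.card) := by ring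

end Pool.Agent.Work.MP_db9399_lf.helper6
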